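import Pool.Agent.H937.QS.Stm3
/-! # Finitely many linear forms suffice -/

set_option autoImplicit false

open Pool.Agent.H937.QS

universe u

namespace Pool.Agent.H348.QS.ELL

/-- An element of maximal valuation. -/
lemma exists_max {K : Type u} [Field K] (W : ValuationSubring K) {l : ℕ} (z : Fin (l + 1) → K) :
    ∃ i0, ∀ i, z i / z i0 ∈ W := by
  obtain ⟨i0, -, h⟩ := Finset.exists_max_image (Finset.univ : Finset (Fin (l + 1)))
    (fun i => W.valuation (z i)) ⟨0, Finset.mem_univ 0⟩
  refine ⟨i0, fun i => ?_⟩
  rw [← W.valuation_le_one_iff, map_div₀]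
  exact div_le_one_of_le₀ (h i (Finset.mem_univ i)) zero_le

/-- Constants which differ from each other differ by units. -/
lemma const_unit {k K : Type u} [Field k] [Field K] [Algebra k K] (W : ValuationSubring K)
    (hW : ∀ c : k, algebraMap k K c ∈ W) (c : k) (hc : c ≠ 0) :
    W.valuation (algebraMap k K c) = 1 := by
  have h1 : W.valuation (algebraMap k K c) ≤ 1 := (W.valuation_le_one_iff _).2 (hW c)
  have h2 : W.valuation (algebraMap k K c⁻¹) ≤ 1 := (W.valuation_le_one_iff _).2 (hW c⁻¹)
  have h3 : W.valuation (algebraMap k K c) * W.valuation (algebraMap k K c⁻¹) = 1 := by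
    rw [← map_mul, ← map_mul, mul_inv_cancel₀ hc, map_one, map_one]
  refine le_antisymm h1 ?_
  calc (1 : W.ValueGroup) = W.valuation (algebraMap k K c) * W.valuation (algebraMap k K c⁻¹) :=
        h3.symm
    _ ≤ W.valuation (algebraMap k K c) * 1 := mul_le_mul_right h2 _
    _ = _ := mul_one _

/-- Coefficient vectors with values in `S` -/
noncomputable def La {k : Type u} (S : Finset k) (l : ℕ) : Finset (Fin (l + 1) → k) :=
  Fintype.piFinset fun _ => S

open Classical in
/-- The bad vectors for one valuation ring are few. -/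
lemma bad_card {k K : Type u} [Field k] [Field K] [Algebra k K] (W : ValuationSubring K)
    (hW : ∀ c : k, algebraMap k K c ∈ W) {l : ℕ} (z : Fin (l + 1) → K) (i0 : Fin (l + 1))
    (hz0 : z i0 ≠ 0) (S : Finset k) :
    ((La S l).filter fun c => W.valuation (∑ j, c j • (z j / z i0)) < 1).card ≤ S.card ^ l := by
  have hmaps : ∀ c ∈ (La S l).filter fun c => W.valuation (∑ j, c j • (z j / z i0)) < 1,
      (fun i => c (i0.succAbove i)) ∈ Fintype.piFinset fun _ : Fin l => S := by
    intro c hc
    rw [Finset.mem_filter, La, Fintype.mem_piFinset] at hc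
    rw [Fintype.mem_piFinset]
    exact fun i => hc.1 _
  refine (Finset.card_le_card_of_injOn (t := Fintype.piFinset fun _ : Fin l => S)
    (fun c i => c (i0.succAbove i))
    (fun c hc => Finset.mem_coe.2 (hmaps c (Finset.mem_coe.1 hc))) ?_).trans ?_
  · intro c hc d hd hcd
    rw [Finset.mem_coe, Finset.mem_filter] at hc hd
    have h1 : ∀ i, c (i0.succAbove i) = d (i0.succAbove i) := fun i => congrFun hcd i
    have h2 : c i0 = d i0 := by
      by_contra hne
      have h3 : ∑ j, c j • (z j / z i0) - ∑ j, d j • (z j / z i0) =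
          algebraMap k K (c i0 - d i0) := by
        rw [Fin.sum_univ_succAbove _ i0, Fin.sum_univ_succAbove (fun j => d j • (z j / z i0)) i0]
        have h4 : ∀ i, c (i0.succAbove i) • (z (i0.succAbove i) / z i0) =
            d (i0.succAbove i) • (z (i0.succAbove i) / z i0) := fun i => by rw [h1]
        rw [Finset.sum_congr rfl fun i _ => h4 i, div_self hz0, Algebra.smul_def,
          Algebra.smul_def, map_sub]
        ring
      have h5 := const_unit W hW (c i0 - d i0) (sub_ne_zero.2 hne)
      rw [← h3] at h5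
      have h6 := W.valuation.map_sub (∑ j, c j • (z j / z i0)) (∑ j, d j • (z j / z i0))
      rw [h5] at h6
      exact absurd h6 (not_le.2 (max_lt hc.2 hd.2))
    funext j
    by_cases hj : j = i0
    · rw [hj, h2]
    · obtain ⟨i, rfl⟩ := Fin.exists_succAbove_eq hj
      exact h1 i
  · rw [Fintype.card_piFinset]
    simp

theorem t_ELL : S_ELL.{u} := by
  classical
  intro k K _ _ _ _ l z hz n
  obtain ⟨S, hS⟩ := Infinite.exists_subset_card_eq k (n + 2)
  refine ⟨La S l, fun V hV => ?_⟩
  -- the valuation rings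
  let W : Option (Fin n) → ValuationSubring K := fun q => q.elim ⊤ V
  have hW : ∀ q, ∀ c : k, algebraMap k K c ∈ W q := by
    rintro (_ | q) c
    · exact ValuationSubring.mem_top _
    · exact hV q c
  have hm := fun q => exists_max (W q) z
  choose i0 hi0 using hm
  -- the good vectors
  have hex : ∃ c ∈ La S l, ∀ q, ¬ (W q).valuation (∑ j, c j • (z j / z (i0 q))) < 1 := by
    by_contra hcon
    push Not at hcon
    have hsub : La S l ⊆ Finset.univ.biUnion fun q =>
        (La S l).filter fun c => (W q).valuation (∑ j, c j • (z j / z (i0 q))) < 1 := by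
      intro c hc
      obtain ⟨q, hq⟩ := hcon c hc
      rw [Finset.mem_biUnion]
      exact ⟨q, Finset.mem_univ q, Finset.mem_filter.2 ⟨hc, hq⟩⟩
    have h1 := (Finset.card_le_card hsub).trans Finset.card_biUnion_le
    have h2 : ∑ q : Option (Fin n), ((La S l).filter fun c =>
        (W q).valuation (∑ j, c j • (z j / z (i0 q))) < 1).card ≤ (n + 1) * (n + 2) ^ l := by
      refine (Finset.sum_le_card_nsmul _ _ _ fun q _ =>
        bad_card (W q) (hW q) z (i0 q) (hz _) S).trans ?_
      rw [hS, smul_eq_mul, Finset.card_univ, Fintype.card_option, Fintype.card_fin]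
    have h3 : (La S l).card = (n + 2) ^ (l + 1) := by
      rw [La, Fintype.card_piFinset]
      simp [hS]
    rw [h3] at h1
    have h4 := h1.trans h2
    have h5 : 0 < (n + 2) ^ l := by positivity
    rw [pow_succ, mul_comm] at h4
    have h6 := Nat.le_of_mul_le_mul_right h4 h5
    omega
  obtain ⟨c, hc, hgood⟩ := hex
  refine ⟨c, hc, ?_⟩
  have hfac : ∀ q, ∑ j, c j • z j = (∑ j, c j • (z j / z (i0 q))) * z (i0 q) := by
    intro q
    rw [Finset.sum_mul]
    refine Finset.sum_congr rfl fun j _ => ?_
    rw [smul_mul_assoc, div_mul_cancel₀ _ (hz _)]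
  have hne : ∀ q, ∑ j, c j • (z j / z (i0 q)) ≠ 0 := by
    intro q h0
    apply hgood q
    rw [h0, map_zero]
    exact zero_lt_one
  refine ⟨?_, fun q i => ?_⟩
  · rw [hfac none]
    exact mul_ne_zero (hne none) (hz _)
  · have h1 : z i / ∑ j, c j • z j =
        (z i / z (i0 (some q))) / ∑ j, c j • (z j / z (i0 (some q))) := by
      rw [hfac (some q), div_div, mul_comm]
    rw [h1]
    have h2 : z i / z (i0 (some q)) ∈ V q := hi0 (some q) i
    have h3 : (V q).valuation (∑ j, c j • (z j / z (i0 (some q)))) ≥ 1 := not_lt.1 (hgood (some q))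
    rw [← (V q).valuation_le_one_iff, map_div₀]
    exact div_le_one_of_le₀ (((V q).valuation_le_one_iff _).2 h2 |>.trans h3) zero_le

end Pool.Agent.H348.QS.ELL
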